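import Mathlib

namespace Pool.Agent.H.MP_acc225_nt

open UniqueFactorizationMonoid Finset Filter

abbrev G := GaussianInt

noncomputable instance nm : StrongNormalizationMonoid G :=
  UniqueFactorizationMonoid.strongNormalizationMonoid

noncomputable def L (z : G) : ℝ := Real.log (z.norm : ℝ)

theorem L_nonneg (z : G) : 0 ≤ L z := Real.log_intCast_nonneg _

theorem norm_posR {z : G} (h : z ≠ 0) : (0 : ℝ) < z.norm := by
  exact_mod_cast GaussianInt.norm_pos.2 h

theorem L_prod (s : Multiset G) (hs : ∀ x ∈ s, x ≠ 0) : L s.prod = (s.map L).sum := by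
  induction s using Multiset.induction_on with
  | empty => simp [L]
  | cons a s ih =>
    have ha : a ≠ 0 := hs a (by simp)
    have hs' : ∀ x ∈ s, x ≠ 0 := fun x hx => hs x (by simp [hx])
    have hp : s.prod ≠ 0 := Multiset.prod_ne_zero (fun h => hs' 0 h rfl)
    rw [Multiset.prod_cons, Multiset.map_cons, Multiset.sum_cons, ← ih hs']
    unfold L
    rw [Zsqrtd.norm_mul, Int.cast_mul, Real.log_mul (norm_posR ha).ne' (norm_posR hp).ne']

theorem L_eq' {z : G} (hz : z ≠ 0) : L z = ((normalizedFactors z).map L).sum := by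
  rw [← L_prod _ (fun x hx => (prime_of_normalized_factor x hx).ne_zero)]
  unfold L
  rw [Zsqrtd.norm_eq_of_associated (by norm_num) (prod_normalizedFactors hz)]

theorem L_eq {z : G} (hz : z ≠ 0) :
    L z = ∑ p ∈ (normalizedFactors z).toFinset, ((normalizedFactors z).count p : ℝ) * L p := by
  rw [L_eq' hz, Finset.sum_multiset_map_count]
  simp

theorem pow_dvd_iff {p z : G} (hp : Prime p) (hn : normalize p = p) (hz : z ≠ 0) (k : ℕ) :
    p ^ k ∣ z ↔ k ≤ (normalizedFactors z).count p := by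
  rw [pow_dvd_iff_le_emultiplicity, emultiplicity_eq_count_normalizedFactors hp.irreducible hz, hn]
  exact Nat.cast_le

theorem two_le_norm {p : G} (hp : Prime p) : 2 ≤ p.norm := by
  have h1 := GaussianInt.norm_pos.2 hp.ne_zero
  have h2 : p.norm ≠ 1 := fun h => hp.not_unit ((Zsqrtd.norm_eq_one_iff' (by norm_num) p).1 h)
  omega

theorem L_pos {p : G} (hp : Prime p) : 0 < L p := by
  apply Real.log_pos
  have : (2 : ℝ) ≤ p.norm := by exact_mod_cast two_le_norm hp
  linarith

theorem norm_le_of_dvd {d z : G} (h : d ∣ z) (hz : z ≠ 0) : d.norm ≤ z.norm := by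
  obtain ⟨w, rfl⟩ := h
  have hw : w ≠ 0 := by rintro rfl; simp at hz
  have := GaussianInt.norm_pos.2 hw
  have := GaussianInt.norm_nonneg d
  rw [Zsqrtd.norm_mul]
  nlinarith

open Classical in
noncomputable def W (P : Finset G) (K : G → ℕ) (z : G) : ℝ :=
  ∑ p ∈ P, ∑ k ∈ Icc 1 (K p), if p ^ k ∣ z then L p else 0

theorem W_inner {p z : G} (hp : Prime p) (hn : normalize p = p) (hz : z ≠ 0) (K : ℕ)
    [∀ k, Decidable (p ^ k ∣ z)] :
    (∑ k ∈ Icc 1 K, if p ^ k ∣ z then L p else 0)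
      = (min K ((normalizedFactors z).count p) : ℕ) * L p := by
  rw [← Finset.sum_filter, Finset.sum_const, nsmul_eq_mul]
  congr 2
  have : (Icc 1 K).filter (fun k => p ^ k ∣ z) = Icc 1 (min K ((normalizedFactors z).count p)) := by
    ext k
    simp only [mem_filter, mem_Icc, pow_dvd_iff hp hn hz, le_min_iff]
    tauto
  rw [this]; simp

theorem W_le {P : Finset G} (hP : ∀ p ∈ P, Prime p ∧ normalize p = p) (K : G → ℕ) {z : G}
    (hz : z ≠ 0) : W P K z ≤ L z := by
  classical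
  unfold W
  rw [L_eq hz]
  calc _ ≤ ∑ p ∈ P, ((normalizedFactors z).count p : ℝ) * L p := by
        refine Finset.sum_le_sum fun p hp => ?_
        rw [W_inner (hP p hp).1 (hP p hp).2 hz]
        exact mul_le_mul_of_nonneg_right (by exact_mod_cast min_le_right _ _) (L_nonneg p)
    _ ≤ _ := by
        rw [← Finset.sum_filter_ne_zero]
        refine Finset.sum_le_sum_of_subset_of_nonneg (fun p hp => ?_)
          (fun p _ _ => mul_nonneg (Nat.cast_nonneg _) (L_nonneg p))
        have h := (mem_filter.1 hp).2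
        rw [Multiset.mem_toFinset, ← Multiset.count_ne_zero]
        rintro h0
        simp [h0] at h

noncomputable def KK (hi : ℝ) (p : G) : ℕ := ⌊hi / L p⌋₊

theorem le_W {P : Finset G} (hP : ∀ p ∈ P, Prime p ∧ normalize p = p) {hi : ℝ} {z : G}
    (hz : z ≠ 0) (hzP : ∀ p ∈ normalizedFactors z, p ∈ P) (hh : L z ≤ hi) :
    L z ≤ W P (KK hi) z := by
  classical
  unfold W
  have e := L_eq hz
  calc L z = _ := e
    _ ≤ ∑ p ∈ P, ((normalizedFactors z).count p : ℝ) * L p := by
        refine Finset.sum_le_sum_of_subset_of_nonneg (fun p hp => hzP p (Multiset.mem_toFinset.1 hp)) ?_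
        intro p _ _
        exact mul_nonneg (Nat.cast_nonneg _) (L_nonneg p)
    _ = _ := by
        refine Finset.sum_congr rfl fun p hp => ?_
        rw [W_inner (hP p hp).1 (hP p hp).2 hz, min_eq_right]
        by_cases h0 : (normalizedFactors z).count p = 0
        · omega
        have hm : p ∈ (normalizedFactors z).toFinset := by
          rwa [Multiset.mem_toFinset, ← Multiset.count_ne_zero]
        have := Finset.single_le_sum
          (f := fun p => ((normalizedFactors z).count p : ℝ) * L p)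
          (fun p _ => mul_nonneg (Nat.cast_nonneg _) (L_nonneg p)) hm
        apply Nat.le_floor
        rw [le_div_iff₀ (L_pos (hP p hp).1)]
        linarith

noncomputable def PT (T : ℕ) : Finset G :=
  (Nat.primesLE T).biUnion fun p => (normalizedFactors (p : G)).toFinset

theorem PT_prime {T : ℕ} : ∀ p ∈ PT T, Prime p ∧ normalize p = p := by
  intro p hp
  simp only [PT, mem_biUnion, Multiset.mem_toFinset] at hp
  obtain ⟨r, -, h⟩ := hp
  exact ⟨prime_of_normalized_factor p h, normalize_normalized_factor p h⟩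

theorem mem_PT {T : ℕ} {p : G} (hp : Prime p) (hn : normalize p = p) (hT : p.norm ≤ T) :
    p ∈ PT T := by
  obtain ⟨n, hn'⟩ := Int.eq_ofNat_of_zero_le (GaussianInt.norm_nonneg p)
  have h2 := two_le_norm hp
  have hd : p ∣ ((n.primeFactorsList.map (Nat.cast : ℕ → G)).prod) := by
    rw [← Nat.cast_list_prod, Nat.prod_primeFactorsList (by omega)]
    have := Zsqrtd.norm_eq_mul_conj p
    rw [hn'] at this
    exact ⟨star p, by simpa using this⟩
  obtain ⟨a, ha, hpa⟩ := (hp.dvd_prod_iff).1 hd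
  obtain ⟨r, hr, rfl⟩ := List.mem_map.1 ha
  have hrp := Nat.prime_of_mem_primeFactorsList hr
  have hrn := Nat.le_of_mem_primeFactorsList hr
  simp only [PT, mem_biUnion, Multiset.mem_toFinset, Nat.mem_primesLE]
  refine ⟨r, ⟨by omega, hrp⟩, ?_⟩
  have hr0 : (r : G) ≠ 0 := by exact_mod_cast hrp.ne_zero
  have := (pow_dvd_iff hp hn hr0 1).1 (by simpa using hpa)
  rw [← Multiset.count_ne_zero]; omega

theorem card_nf {r : ℕ} (hr : r.Prime) : (normalizedFactors (r : G)).card ≤ 2 := by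
  have hr0 : (r : G) ≠ 0 := by exact_mod_cast hr.ne_zero
  have e := L_eq' hr0
  have hl : 0 < Real.log r := Real.log_pos (by exact_mod_cast hr.one_lt)
  have e2 : L (r : G) = 2 * Real.log r := by
    unfold L
    rw [Zsqrtd.norm_natCast]
    push_cast
    rw [← sq, Real.log_pow]; norm_num
  have h : ∀ x ∈ (normalizedFactors (r : G)).map L, Real.log r ≤ x := by
    intro x hx
    obtain ⟨p, hp, rfl⟩ := Multiset.mem_map.1 hx
    have hpp := prime_of_normalized_factor p hp
    obtain ⟨w, hw⟩ := dvd_of_mem_normalizedFactors hp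
    obtain ⟨n, hn'⟩ := Int.eq_ofNat_of_zero_le (GaussianInt.norm_nonneg p)
    have h2 := two_le_norm hpp
    have hd : n ∣ r ^ 2 := by
      have := congrArg Zsqrtd.norm hw
      rw [Zsqrtd.norm_natCast, Zsqrtd.norm_mul, hn'] at this
      have : (n : ℤ) ∣ ((r ^ 2 : ℕ) : ℤ) := ⟨w.norm, by push_cast; rw [← this]; ring⟩
      exact_mod_cast this
    obtain ⟨i, hi, rfl⟩ := (Nat.dvd_prime_pow hr).1 hd
    have hi0 : i ≠ 0 := by rintro rfl; simp at hn'; omega
    have : r ≤ r ^ i := Nat.le_self_pow hi0 r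
    unfold L
    rw [hn']
    exact Real.log_le_log (by exact_mod_cast hr.pos) (by exact_mod_cast this)
  have := Multiset.card_nsmul_le_sum h
  rw [← e, e2, Multiset.card_map, nsmul_eq_mul] at this
  have : ((normalizedFactors (r : G)).card : ℝ) ≤ 2 := le_of_mul_le_mul_right this hl
  exact_mod_cast this

theorem card_PT (T : ℕ) : (PT T).card ≤ 2 * Nat.primeCounting T := by
  unfold PT
  refine (Finset.card_biUnion_le_card_mul _ _ 2 fun r hr => ?_).trans ?_
  · exact (Multiset.toFinset_card_le _).trans (card_nf (Nat.prime_of_mem_primesLE hr))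
  · rw [Nat.primesLE_card_eq_primeCounting, mul_comm]

theorem pi_small {δ : ℝ} (hδ : 0 < δ) : ∀ᶠ T : ℕ in atTop, (Nat.primeCounting T : ℝ) ≤ δ * T := by
  have h1 := (tendsto_natCast_atTop_atTop (R := ℝ)).eventually
    (Chebyshev.eventually_primeCounting_le one_pos)
  have h2 := (Real.tendsto_log_atTop.comp (tendsto_natCast_atTop_atTop (R := ℝ))).eventually_ge_atTop
    ((Real.log 4 + 1) / δ)
  filter_upwards [h1, h2] with T a b
  rw [Nat.floor_natCast] at a
  have c : 0 < Real.log 4 + 1 := by positivity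
  have b' : (Real.log 4 + 1) / δ ≤ Real.log T := b
  have hl : 0 < Real.log T := lt_of_lt_of_le (by positivity) b'
  refine a.trans ?_
  rw [div_le_iff₀ hδ] at b'
  rw [div_le_iff₀ hl]
  have : (0 : ℝ) ≤ T := Nat.cast_nonneg T
  nlinarith

/-- the square `M + Q_N` -/
noncomputable def sq (M : ℤ) (N : ℕ) : Finset G :=
  ((Ioo (-(N : ℤ)) N) ×ˢ (Ioo (-(N : ℤ)) N)).image fun p => (⟨M + p.1, p.2⟩ : G)

theorem mem_sq {M : ℤ} {N : ℕ} {z : G} :
    z ∈ sq M N ↔ (-(N : ℤ) < z.re - M ∧ z.re - M < N) ∧ (-(N : ℤ) < z.im ∧ z.im < N) := by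
  simp only [sq, mem_image, mem_product, mem_Ioo]
  constructor
  · rintro ⟨p, h, rfl⟩
    simpa using h
  · intro h
    exact ⟨(z.re - M, z.im), h, by ext <;> simp⟩

theorem card_sq (M : ℤ) (N : ℕ) : (sq M N).card = (2 * N - 1) ^ 2 := by
  unfold sq
  rw [Finset.card_image_of_injective, Finset.card_product, Int.card_Ioo]
  · have : ((N : ℤ) - -(N : ℤ) - 1).toNat = 2 * N - 1 := by omega
    rw [this, pow_two]
  · rintro ⟨a, b⟩ ⟨c, d⟩ h
    simp only [Zsqrtd.mk.injEq] at h
    ext <;> simp <;> omega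

theorem norm_eq (z : G) : z.norm = z.re ^ 2 + z.im ^ 2 := by
  rw [Zsqrtd.norm_def]; ring

open Classical in
noncomputable def cnt (d : G) (A : Finset G) : ℕ := (A.filter fun z => d ∣ z).card

theorem cnt_sep {d : G} {s : ℕ} (hs : 1 ≤ s) (hd : 2 * (s : ℤ) ^ 2 ≤ d.norm) (M : ℤ) (N : ℕ) :
    cnt d (sq M N) ≤ (2 * N / s + 1) ^ 2 := by
  classical
  unfold cnt
  have hs' : (0 : ℤ) < s := by omega
  have hc : ((Icc (0 : ℤ) ((2 * N / s : ℕ) : ℤ)) ×ˢ (Icc (0 : ℤ) ((2 * N / s : ℕ) : ℤ))).card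
      = (2 * N / s + 1) ^ 2 := by
    rw [Finset.card_product, Int.card_Icc, pow_two]
    congr 1
  rw [← hc]
  have bd : ∀ x : ℤ, 0 ≤ x → x ≤ 2 * N → x / s ∈ Icc (0 : ℤ) ((2 * N / s : ℕ) : ℤ) := by
    intro x h0 h1
    rw [mem_Icc]
    push_cast
    exact ⟨Int.ediv_nonneg h0 hs'.le, Int.ediv_le_ediv hs' h1⟩
  have cl : ∀ x y : ℤ, x / s = y / s → (x - y) ^ 2 < (s : ℤ) ^ 2 := by
    intro x y h
    have a1 := Int.emod_add_mul_ediv x s
    have a2 := Int.emod_add_mul_ediv y s
    have a3 := Int.emod_nonneg x hs'.ne'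
    have a4 := Int.emod_nonneg y hs'.ne'
    have a5 := Int.emod_lt_of_pos x hs'
    have a6 := Int.emod_lt_of_pos y hs'
    rw [h] at a1
    exact sq_lt_sq' (by linarith) (by linarith)
  refine Finset.card_le_card_of_injOn (fun z => ((z.re - M + N) / s, (z.im + N) / s)) ?_ ?_
  · intro z hz
    have := mem_sq.1 (mem_filter.1 (mem_coe.1 hz)).1
    rw [mem_coe, mem_product]
    exact ⟨bd _ (by omega) (by omega), bd _ (by omega) (by omega)⟩
  · intro z hz w hw h
    simp only [Prod.mk.injEq] at h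
    have dz := (mem_filter.1 (mem_coe.1 hz)).2
    have dw := (mem_filter.1 (mem_coe.1 hw)).2
    by_contra hne
    have h1 := norm_le_of_dvd (dvd_sub dz dw) (sub_ne_zero.2 hne)
    have c1 := cl _ _ h.1
    have c2 := cl _ _ h.2
    rw [norm_eq (z - w)] at h1
    simp only [Zsqrtd.re_sub, Zsqrtd.im_sub] at h1
    nlinarith

theorem cnt_shift {d : G} (hd0 : d ≠ 0) {t : ℕ} (hd : d.norm ≤ (t : ℤ) ^ 2) (M : ℤ) (N : ℕ) :
    cnt d (sq M N) ≤ cnt d ((sq 0 (N + t)).erase 0) + 1 := by
  classical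
  unfold cnt
  have hr := GaussianInt.norm_mod_lt (M : G) hd0
  have hdef := GaussianInt.mod_def (M : G) d
  generalize (M : G) % d = r at hr hdef
  rw [norm_eq r] at hr
  have ht : (0 : ℤ) ≤ t := by omega
  have r1 := abs_lt_of_sq_lt_sq' (a := r.re) (b := t) (by nlinarith [sq_nonneg r.im]) ht
  have r2 := abs_lt_of_sq_lt_sq' (a := r.im) (b := t) (by nlinarith [sq_nonneg r.re]) ht
  have h1 : ((sq M N).filter fun z => d ∣ z).card ≤ ((sq 0 (N + t)).filter fun z => d ∣ z).card := by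
    refine Finset.card_le_card_of_injOn (fun z => z - (M : G) + r) ?_ ?_
    · intro z hz
      obtain ⟨a, b⟩ := mem_filter.1 (mem_coe.1 hz)
      rw [mem_sq] at a
      rw [mem_coe, mem_filter, mem_sq]
      constructor
      · simp only [Zsqrtd.re_add, Zsqrtd.re_sub, Zsqrtd.im_add, Zsqrtd.im_sub, Zsqrtd.re_intCast,
          Zsqrtd.im_intCast]
        push_cast
        omega
      · have : z - (M : G) + r = z - d * ((M : G) / d) := by rw [hdef]; ring
        show d ∣ z - (M : G) + r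
        rw [this]
        exact dvd_sub b (dvd_mul_right _ _)
    · intro z _ w _ h
      simpa using h
  refine h1.trans ?_
  rw [Finset.filter_erase]
  have := Finset.pred_card_le_card_erase (s := (sq 0 (N + t)).filter fun z => d ∣ z) (a := 0)
  omega

theorem cnt_unif {d : G} (hd0 : d ≠ 0) (q : ℕ) {s : ℕ} (hs : 1 ≤ s) (M : ℤ) :
    cnt d (sq M (2 * q * s)) ≤ cnt d ((sq 0 (2 * q * s + 2 * s)).erase 0) + (4 * q + 1) ^ 2 := by
  by_cases h : d.norm ≤ ((2 * s : ℕ) : ℤ) ^ 2
  · have := cnt_shift hd0 h M (2 * q * s)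
    have : 1 ≤ (4 * q + 1) ^ 2 := Nat.one_le_pow _ _ (by omega)
    omega
  · push Not at h
    push_cast at h
    have := cnt_sep hs (d := d) (by nlinarith [sq_nonneg (s : ℤ)]) M (2 * q * s)
    have e : 2 * (2 * q * s) / s = 4 * q := by
      rw [show 2 * (2 * q * s) = 4 * q * s by ring, Nat.mul_div_cancel _ hs]
    rw [e] at this
    omega

theorem cnt_wt {d : G} (hd : 2 ≤ d.norm) (M : ℤ) {N : ℕ} (hN : d.norm ≤ N) :
    (cnt d (sq M N) : ℝ) ≤ 72 * (N : ℝ) ^ 2 * (1 / d.norm) := by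
  obtain ⟨n, hn⟩ := Int.eq_ofNat_of_zero_le (GaussianInt.norm_nonneg d)
  have s1 := Nat.sqrt_le' (n / 2)
  have s2 := Nat.lt_succ_sqrt' (n / 2)
  have s3 : 1 ≤ Nat.sqrt (n / 2) := by rw [Nat.le_sqrt]; omega
  generalize Nat.sqrt (n / 2) = s at s1 s2 s3
  have a1 : 2 * s ^ 2 ≤ n := by omega
  have a2 : n ≤ 8 * s ^ 2 := by
    have : s.succ ^ 2 ≤ (2 * s) ^ 2 := Nat.pow_le_pow_left (by omega) 2
    rw [mul_pow] at this
    omega
  have a3 : s ≤ N := by
    have : s ≤ s ^ 2 := Nat.le_self_pow (by norm_num) s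
    omega
  have h := cnt_sep s3 (d := d) (by rw [hn]; exact_mod_cast a1) M N
  have a4 : (2 * N / s + 1) * s ≤ 3 * N := by
    have := Nat.div_mul_le_self (2 * N) s
    nlinarith
  have a5 : cnt d (sq M N) * n ≤ 72 * N ^ 2 := by
    calc cnt d (sq M N) * n ≤ (2 * N / s + 1) ^ 2 * (8 * s ^ 2) := Nat.mul_le_mul h a2
      _ = 8 * ((2 * N / s + 1) * s) ^ 2 := by ring
      _ ≤ 8 * (3 * N) ^ 2 := Nat.mul_le_mul_left _ (Nat.pow_le_pow_left a4 2)
      _ = 72 * N ^ 2 := by ring
  have hn0 : (0 : ℝ) < n := by exact_mod_cast (by omega : 0 < n)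
  rw [hn, mul_one_div, Int.cast_natCast, le_div_iff₀ hn0]
  exact_mod_cast a5

theorem sum_W (P : Finset G) (K : G → ℕ) (A : Finset G) :
    ∑ z ∈ A, W P K z = ∑ p ∈ P, ∑ k ∈ Icc 1 (K p), (cnt (p ^ k) A : ℝ) * L p := by
  classical
  unfold W cnt
  rw [Finset.sum_comm]
  refine Finset.sum_congr rfl fun p _ => ?_
  rw [Finset.sum_comm]
  refine Finset.sum_congr rfl fun k _ => ?_
  rw [← Finset.sum_filter, Finset.sum_const, nsmul_eq_mul]

theorem W_nonneg (P : Finset G) (K : G → ℕ) (z : G) : 0 ≤ W P K z := by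
  unfold W
  refine Finset.sum_nonneg fun p _ => Finset.sum_nonneg fun k _ => ?_
  split_ifs
  · exact L_nonneg p
  · rfl

def Sm (T : ℕ) (z : G) : Prop := ∀ p ∈ normalizedFactors z, p ∈ PT T

open Classical in
theorem main_ineq (q : ℕ) {s : ℕ} (hs : 1 ≤ s) (M : ℤ) (T : ℕ) {lo hi hi' : ℝ} (hhi : 0 ≤ hi)
    (hhi' : 0 ≤ hi')
    (h1 : ∀ z ∈ sq M (2 * q * s), z ≠ 0 ∧ lo ≤ L z ∧ L z ≤ hi)
    (h2 : ∀ z ∈ sq 0 (2 * q * s + 2 * s), z ≠ 0 → L z ≤ hi') :
    lo * ((sq M (2 * q * s)).filter (Sm T)).card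
      ≤ (2 * (2 * q * s + 2 * s : ℕ) : ℝ) ^ 2 * hi' + (4 * q + 1) ^ 2 * ((PT T).card * hi) := by
  set A := sq M (2 * q * s) with hA
  set B := (sq 0 (2 * q * s + 2 * s)).erase 0 with hB
  have hP := PT_prime (T := T)
  calc lo * (A.filter (Sm T)).card
      = ∑ _z ∈ A.filter (Sm T), lo := by
        rw [Finset.sum_const, nsmul_eq_mul, mul_comm]
    _ ≤ ∑ z ∈ A.filter (Sm T), W (PT T) (KK hi) z := by
        refine Finset.sum_le_sum fun z hz => ?_
        obtain ⟨a, b⟩ := mem_filter.1 hz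
        obtain ⟨c, d, e⟩ := h1 z a
        exact d.trans (le_W hP c b e)
    _ ≤ ∑ z ∈ A, W (PT T) (KK hi) z :=
        Finset.sum_le_sum_of_subset_of_nonneg (filter_subset _ _) fun z _ _ => W_nonneg _ _ z
    _ ≤ ∑ p ∈ PT T, ∑ k ∈ Icc 1 (KK hi p), ((cnt (p ^ k) B : ℝ) * L p + (4 * q + 1) ^ 2 * L p) := by
        rw [sum_W]
        refine Finset.sum_le_sum fun p hp => Finset.sum_le_sum fun k _ => ?_
        rw [← add_mul]
        refine mul_le_mul_of_nonneg_right ?_ (L_nonneg p)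
        exact_mod_cast cnt_unif (pow_ne_zero k (hP p hp).1.ne_zero) q hs M
    _ = ∑ z ∈ B, W (PT T) (KK hi) z
          + (4 * q + 1) ^ 2 * ∑ p ∈ PT T, (KK hi p : ℝ) * L p := by
        rw [sum_W, Finset.mul_sum, ← Finset.sum_add_distrib]
        refine Finset.sum_congr rfl fun p _ => ?_
        rw [Finset.sum_add_distrib, Finset.sum_const, nsmul_eq_mul]
        simp only [Nat.card_Icc, Nat.add_sub_cancel]
        ring
    _ ≤ _ := by
        apply add_le_add
        · have : ∑ z ∈ B, W (PT T) (KK hi) z ≤ B.card • hi' := by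
            refine Finset.sum_le_card_nsmul _ _ _ fun z hz => ?_
            obtain ⟨a, b⟩ := mem_erase.1 hz
            exact (W_le hP _ a).trans (h2 z b a)
          refine this.trans ?_
          rw [nsmul_eq_mul]
          refine mul_le_mul_of_nonneg_right ?_ hhi'
          have c1 : B.card ≤ (2 * (2 * q * s + 2 * s)) ^ 2 := by
            refine Finset.card_erase_le.trans ?_
            rw [card_sq]
            exact Nat.pow_le_pow_left (by omega) 2
          exact_mod_cast c1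
        · refine mul_le_mul_of_nonneg_left ?_ (by positivity)
          rw [← nsmul_eq_mul]
          refine Finset.sum_le_card_nsmul _ _ _ fun p hp => ?_
          have hl := L_pos (hP p hp).1
          rw [← le_div_iff₀ hl]
          exact Nat.floor_le (by positivity)

end Pool.Agent.H.MP_acc225_nt
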