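import Mathlib
import Pool.Agent.H.MP_acc225_nt.A

namespace Pool.Agent.H.MP_acc225_nt

open UniqueFactorizationMonoid Finset Filter Topology

noncomputable def Ph (ε : ℝ) (N : ℕ) : Finset G := sq ⌊(N : ℝ) ^ (1 + ε)⌋ N

theorem Ph_ne {ε : ℝ} (hε : 0 < ε) {N : ℕ} {z : G} (hz : z ∈ Ph ε N) : z ≠ 0 := by
  rintro rfl
  have h := mem_sq.1 hz
  simp only [Zsqrtd.re_zero, Zsqrtd.im_zero] at h
  have h1 : (1 : ℝ) ≤ N := by exact_mod_cast (by omega : 1 ≤ N)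
  have h2 : (N : ℝ) ≤ (N : ℝ) ^ (1 + ε) := Real.self_le_rpow_of_one_le h1 (by linarith)
  have h3 : (N : ℤ) ≤ ⌊(N : ℝ) ^ (1 + ε)⌋ := Int.le_floor.2 (by exact_mod_cast h2)
  omega

theorem Ph_bounds {ε : ℝ} {N : ℕ} (hN : 1 ≤ N) (h4 : 4 ≤ (N : ℝ) ^ ε) {z : G} (hz : z ∈ Ph ε N) :
    2 * (1 + ε) * Real.log N - Real.log 4 ≤ L z ∧ L z ≤ 2 * (1 + ε) * Real.log N + Real.log 5 := by
  have h := mem_sq.1 hz
  have h1 : (1 : ℝ) ≤ N := by exact_mod_cast hN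
  have h0 : (0 : ℝ) < N := by linarith
  have e : (N : ℝ) ^ (1 + ε) = N * (N : ℝ) ^ ε := by rw [Real.rpow_add h0, Real.rpow_one]
  have el : Real.log ((N : ℝ) ^ (1 + ε)) = (1 + ε) * Real.log N := Real.log_rpow h0 _
  have f1 := Int.floor_le ((N : ℝ) ^ (1 + ε))
  have f2 := Int.lt_floor_add_one ((N : ℝ) ^ (1 + ε))
  have x4 : 4 * (N : ℝ) ≤ (N : ℝ) ^ (1 + ε) := by rw [e]; nlinarith
  generalize (N : ℝ) ^ (1 + ε) = x at *
  have a1 : -(N : ℝ) < z.re - (⌊x⌋ : ℝ) := by exact_mod_cast h.1.1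
  have a2 : (z.re : ℝ) - (⌊x⌋ : ℝ) < N := by exact_mod_cast h.1.2
  have a3 : -(N : ℝ) < z.im := by exact_mod_cast h.2.1
  have a4 : (z.im : ℝ) < N := by exact_mod_cast h.2.2
  have en : (z.norm : ℝ) = (z.re : ℝ) ^ 2 + (z.im : ℝ) ^ 2 := by rw [norm_eq]; push_cast; ring
  have x0 : 0 < x := by linarith
  have b1 : x ^ 2 / 4 ≤ z.norm := by rw [en]; nlinarith [sq_nonneg (z.im : ℝ)]
  have b2 : (z.norm : ℝ) ≤ x ^ 2 * 5 := by rw [en]; nlinarith
  have c1 := Real.log_le_log (by positivity) b1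
  have c2 := Real.log_le_log (lt_of_lt_of_le (by positivity) b1) b2
  rw [Real.log_div (by positivity) (by norm_num), Real.log_pow, el] at c1
  rw [Real.log_mul (by positivity) (by norm_num), Real.log_pow, el] at c2
  unfold L
  push_cast at c1 c2
  constructor <;> linarith

theorem sq0_bound {N N' : ℕ} (hN : 1 ≤ N) (h : N' ≤ 2 * N) {z : G} (hz : z ∈ sq 0 N') (h0 : z ≠ 0) :
    L z ≤ 2 * Real.log N + Real.log 8 := by
  have h' := mem_sq.1 hz
  have h1 : (1 : ℝ) ≤ N := by exact_mod_cast hN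
  have b : z.norm ≤ (N : ℤ) ^ 2 * 8 := by
    rw [norm_eq]
    have p1 : z.re ^ 2 ≤ (2 * N) ^ 2 := sq_le_sq' (by omega) (by omega)
    have p2 : z.im ^ 2 ≤ (2 * N) ^ 2 := sq_le_sq' (by omega) (by omega)
    nlinarith
  have b' : (z.norm : ℝ) ≤ (N : ℝ) ^ 2 * 8 := by exact_mod_cast b
  have c := Real.log_le_log (norm_posR h0) b'
  rw [Real.log_mul (by positivity) (by norm_num), Real.log_pow] at c
  unfold L
  push_cast at c
  exact c

theorem arith {ε lam l A N S C p lo hi hi' : ℝ} (hε : 0 < ε) (l1 : 1 ≤ lam) (l2 : lam ≤ 2)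
    (l5 : lam ^ 5 ≤ 1 + ε / 2) (hl : 0 < l) (hA : 0 ≤ A) (hS : 0 ≤ S) (hC : 0 ≤ C) (hp : 0 ≤ p)
    (hlo : 2 * (1 + ε) * l ≤ lam * lo) (hhi : hi ≤ 4 * (1 + ε) * l) (hhi' : hi' ≤ 2 * lam * l)
    (hN : 4 * N ^ 2 ≤ lam * A) (hCp : 4 * C * p ≤ ε / (4 * (1 + ε)) * A)
    (h : lo * S ≤ (2 * (lam * N)) ^ 2 * hi' + C * (p * hi)) :
    S ≤ (1 - ε / (4 * (1 + ε))) * A := by
  have l0 : 0 < lam := by linarith
  have q1 : (2 * (lam * N)) ^ 2 * hi' ≤ lam ^ 2 * (lam * A) * (2 * lam * l) := by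
    calc (2 * (lam * N)) ^ 2 * hi' ≤ (2 * (lam * N)) ^ 2 * (2 * lam * l) :=
          mul_le_mul_of_nonneg_left hhi' (by positivity)
      _ = lam ^ 2 * (4 * N ^ 2) * (2 * lam * l) := by ring
      _ ≤ _ := by gcongr
  have q2 : C * (p * hi) ≤ C * (p * (4 * (1 + ε) * l)) := by gcongr
  have q3 : 2 * (1 + ε) * l * S ≤ lam * (lo * S) := by
    rw [← mul_assoc]; exact mul_le_mul_of_nonneg_right hlo hS
  have q4 : lam * (lo * S) ≤ lam * (lam ^ 2 * (lam * A) * (2 * lam * l) + C * (p * (4 * (1 + ε) * l))) :=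
    mul_le_mul_of_nonneg_left (by linarith) l0.le
  have q5 : lam ^ 5 * (2 * A * l) ≤ (1 + ε / 2) * (2 * A * l) := by gcongr
  have q6 : lam * (C * (p * (4 * (1 + ε) * l))) ≤ 2 * (C * (p * (4 * (1 + ε) * l))) := by gcongr
  have q7 : (4 * C * p) * (2 * (1 + ε) * l) ≤ (ε / (4 * (1 + ε)) * A) * (2 * (1 + ε) * l) := by gcongr
  have e1 : (ε / (4 * (1 + ε)) * A) * (2 * (1 + ε) * l) = ε / 2 * (A * l) := by field_simp; ring
  have e2 : 2 * (1 + ε) * l * ((1 - ε / (4 * (1 + ε))) * A) = (2 + 3 * ε / 2) * (A * l) := by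
    field_simp; ring
  have : 2 * (1 + ε) * l * S ≤ 2 * (1 + ε) * l * ((1 - ε / (4 * (1 + ε))) * A) := by
    rw [e2]
    rw [e1] at q7
    nlinarith
  exact le_of_mul_le_mul_left this (by positivity)

open Classical in
theorem smooth_few {ε : ℝ} (hε : 0 < ε) {K : ℕ} (hK : 1 ≤ K) (N0 : ℕ) :
    ∃ N, N0 ≤ N ∧ 1 ≤ N ∧ (((Ph ε N).filter (Sm (K * N ^ 2))).card : ℝ)
      ≤ (1 - ε / (4 * (1 + ε))) * (Ph ε N).card := by
  obtain ⟨q, hq1, hq⟩ : ∃ q : ℕ, 1 ≤ q ∧ (1 + 1 / (q : ℝ)) ^ 5 ≤ 1 + ε / 2 := by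
    have t : Tendsto (fun q : ℕ => (1 + 1 / (q : ℝ)) ^ 5) atTop (𝓝 ((1 + 0) ^ 5)) :=
      (tendsto_const_nhds.add tendsto_one_div_atTop_nhds_zero_nat).pow 5
    exact ((eventually_ge_atTop 1).and (t.eventually_le_const (by linarith))).exists
  have hq0 : (1 : ℝ) ≤ q := by exact_mod_cast hq1
  set lam : ℝ := 1 + 1 / (q : ℝ) with hlam
  have i0 : 0 < 1 / (q : ℝ) := by positivity
  have i1 : 1 / (q : ℝ) ≤ 1 := by rw [div_le_one (by linarith)]; exact hq0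
  set c : ℝ := ε / (4 * (1 + ε)) with hc
  have c0 : 0 < c := by positivity
  set C : ℝ := (4 * q + 1) ^ 2 with hC
  have C0 : 0 < C := by positivity
  have K0 : (0 : ℝ) < K := by exact_mod_cast hK
  have tN := tendsto_natCast_atTop_atTop (R := ℝ)
  have tl : Tendsto (fun N : ℕ => Real.log N) atTop atTop := Real.tendsto_log_atTop.comp tN
  have tT : Tendsto (fun N : ℕ => K * N ^ 2) atTop atTop :=
    tendsto_atTop_mono (fun N => (Nat.le_self_pow (by norm_num) N).trans (Nat.le_mul_of_pos_left _ hK))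
      tendsto_id
  have E1 := ((tendsto_rpow_atTop hε).comp tN).eventually_ge_atTop 4
  have E2 := tl.eventually_ge_atTop (8 * q)
  have E3 := tT.eventually (pi_small (δ := c / (8 * C * K)) (by positivity))
  have E4 := tN.eventually_ge_atTop (4 * q)
  obtain ⟨N1, hN1⟩ := eventually_atTop.1 (E1.and (E2.and (E3.and E4)))
  obtain ⟨s, hs1, hs2, hs3⟩ : ∃ s : ℕ, 1 ≤ s ∧ N1 ≤ s ∧ N0 ≤ s := ⟨N1 + N0 + 1, by omega, by omega, by omega⟩
  have hsN : s ≤ 2 * q * s := Nat.le_mul_of_pos_left _ (by omega)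
  have h2s : 2 * s ≤ 2 * q * s := Nat.mul_le_mul_right _ (by omega)
  obtain ⟨e1, e2, e3, e4⟩ := hN1 (2 * q * s) (by omega)
  have m := main_ineq q hs1 ⌊((2 * q * s : ℕ) : ℝ) ^ (1 + ε)⌋ (K * (2 * q * s) ^ 2)
    (lo := 2 * (1 + ε) * Real.log (2 * q * s : ℕ) - Real.log 4)
    (hi := 2 * (1 + ε) * Real.log (2 * q * s : ℕ) + Real.log 5)
    (hi' := 2 * Real.log (2 * q * s : ℕ) + Real.log 8)
    (by have := Real.log_natCast_nonneg (2 * q * s); positivity)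
    (by have := Real.log_natCast_nonneg (2 * q * s); positivity)
    (fun z hz => ⟨Ph_ne hε hz, Ph_bounds (by omega) e1 hz⟩)
    (fun z hz h0 => sq0_bound (by omega) (by omega) hz h0)
  have eN : ((2 * q * s + 2 * s : ℕ) : ℝ) = lam * (2 * q * s : ℕ) := by
    rw [hlam]; push_cast; field_simp
  rw [eN] at m
  refine ⟨2 * q * s, by omega, by omega, ?_⟩
  have hN1' : 1 ≤ 2 * q * s := by omega
  generalize 2 * q * s = N at *
  have eA : ((Ph ε N).card : ℝ) = (2 * N - 1) ^ 2 := by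
    unfold Ph
    rw [card_sq, Nat.cast_pow, Nat.cast_sub (by omega)]
    push_cast; ring
  have lg : ∀ x : ℝ, 0 < x → x ≤ 8 → Real.log x ≤ 7 := fun x h0 h8 => by
    linarith [Real.log_le_sub_one_of_pos h0]
  have g4 := lg 4 (by norm_num) (by norm_num)
  have g5 := lg 5 (by norm_num) (by norm_num)
  have g8 := lg 8 (by norm_num) (by norm_num)
  have g4' : 0 ≤ Real.log 4 := by positivity
  have lq : 8 ≤ Real.log N * (1 / q) := by
    rw [mul_one_div, le_div_iff₀ (by linarith)]; exact e2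
  have Nq : 4 ≤ (N : ℝ) * (1 / q) := by
    rw [mul_one_div, le_div_iff₀ (by linarith)]; exact e4
  have l0 : 0 < Real.log N := by linarith
  have N1' : (1 : ℝ) ≤ N := by exact_mod_cast hN1'
  have hP : ((PT (K * N ^ 2)).card : ℝ) ≤ 2 * (c / (8 * C * K) * (K * N ^ 2 : ℕ)) := by
    have : ((PT (K * N ^ 2)).card : ℝ) ≤ 2 * Nat.primeCounting (K * N ^ 2) := by
      exact_mod_cast card_PT _
    linarith
  refine arith hε (by linarith) (by linarith) hq l0 (Nat.cast_nonneg _) (Nat.cast_nonneg _) C0.le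
    (Nat.cast_nonneg _) ?_ ?_ ?_ ?_ ?_ m
  · rw [hlam]
    have : 0 ≤ ε * (Real.log N * (1 / q)) := by positivity
    nlinarith
  · nlinarith
  · rw [hlam]; nlinarith
  · rw [eA, hlam]
    have : (N : ℝ) ^ 2 ≤ (2 * N - 1) ^ 2 := by nlinarith
    have : (N : ℝ) ^ 2 * (1 / q) ≤ (2 * N - 1) ^ 2 * (1 / q) := by gcongr
    nlinarith
  · rw [eA]
    have h1 : 4 * C * (PT (K * N ^ 2)).card ≤ 4 * C * (2 * (c / (8 * C * K) * (K * N ^ 2 : ℕ))) := by
      gcongr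
    have h2 : 4 * C * (2 * (c / (8 * C * K) * (K * N ^ 2 : ℕ))) = c * N ^ 2 := by
      push_cast; field_simp; ring
    have h3 : (N : ℝ) ^ 2 ≤ (2 * N - 1) ^ 2 := by nlinarith
    have h4 : c * (N : ℝ) ^ 2 ≤ c * (2 * N - 1) ^ 2 := by gcongr
    linarith

def Hs (U : Set G) (z : G) : Prop := ∃ p ∈ U, p ∣ z

open Classical in
noncomputable def hit (U : Set G) (A : Finset G) : ℕ := (A.filter (Hs U)).card

theorem hit_mono {U V : Set G} {A : Finset G} (h : ∀ z ∈ A, ∀ p ∈ U, p ∣ z → p ∈ V) :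
    (hit U A : ℝ) ≤ hit V A := by
  classical
  unfold hit
  refine Nat.cast_le.2 (Finset.card_le_card fun z hz => ?_)
  rw [mem_filter] at hz ⊢
  obtain ⟨a, p, b, c⟩ := hz
  exact ⟨a, p, h z a p b c, c⟩

noncomputable def wt (U : Finset G) : ℝ := ∑ p ∈ U, 1 / (p.norm : ℝ)

theorem many {ε : ℝ} (hε : 0 < ε) {K : ℕ} (hK : 1 ≤ K) (N0 : ℕ) :
    ∃ N, N0 ≤ N ∧ 1 ≤ N ∧ ∃ S : Finset G, (∀ p ∈ S, Prime p ∧ (K : ℤ) < p.norm) ∧ wt S ≤ 4 / K ∧
      ε / (4 * (1 + ε)) * (Ph ε N).card ≤ hit S (Ph ε N) := by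
  classical
  obtain ⟨N, h0, h1, h⟩ := smooth_few hε hK N0
  have ch : ∀ z : G, ∃ p : G, ¬ Sm (K * N ^ 2) z →
      Prime p ∧ p ∣ z ∧ ((K * N ^ 2 : ℕ) : ℤ) < p.norm := by
    intro z
    by_cases hz : Sm (K * N ^ 2) z
    · exact ⟨0, fun h => (h hz).elim⟩
    · unfold Sm at hz
      push Not at hz
      obtain ⟨p, a, b⟩ := hz
      refine ⟨p, fun _ => ⟨prime_of_normalized_factor p a, dvd_of_mem_normalizedFactors a, ?_⟩⟩
      by_contra hc
      exact b (mem_PT (prime_of_normalized_factor p a) (normalize_normalized_factor p a) (not_lt.1 hc))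
  choose g hg using ch
  set B := (Ph ε N).filter (fun z => ¬ Sm (K * N ^ 2) z) with hB
  have hKN : K ≤ K * N ^ 2 := Nat.le_mul_of_pos_right _ (by positivity)
  have hS : ∀ p ∈ B.image g, Prime p ∧ ((K * N ^ 2 : ℕ) : ℤ) < p.norm := by
    intro p hp
    obtain ⟨z, hz, rfl⟩ := mem_image.1 hp
    have := hg z (mem_filter.1 hz).2
    exact ⟨this.1, this.2.2⟩
  refine ⟨N, h0, h1, B.image g, fun p hp => ⟨(hS p hp).1, by have := (hS p hp).2; omega⟩, ?_, ?_⟩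
  · have N0' : (0 : ℝ) < N := by exact_mod_cast h1
    have K0 : (0 : ℝ) < K := by exact_mod_cast hK
    have c1 : wt (B.image g) ≤ (B.image g).card • (1 / ((K : ℝ) * N ^ 2)) := by
      refine Finset.sum_le_card_nsmul _ _ _ fun p hp => ?_
      have : ((K * N ^ 2 : ℕ) : ℝ) < p.norm := by exact_mod_cast (hS p hp).2
      push_cast at this
      exact one_div_le_one_div_of_le (by positivity) this.le
    have c2 : (B.image g).card ≤ (2 * N) ^ 2 := by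
      refine Finset.card_image_le.trans ((Finset.card_filter_le _ _).trans ?_)
      unfold Ph
      rw [card_sq]
      exact Nat.pow_le_pow_left (by omega) 2
    have c3 : ((B.image g).card : ℝ) ≤ (2 * N) ^ 2 := by exact_mod_cast c2
    rw [nsmul_eq_mul] at c1
    calc _ ≤ _ := c1
      _ ≤ (2 * N) ^ 2 * (1 / ((K : ℝ) * N ^ 2)) := by gcongr
      _ = 4 / K := by field_simp; ring
  · have c1 : B.card ≤ hit (B.image g) (Ph ε N) := by
      unfold hit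
      refine Finset.card_le_card fun z hz => ?_
      have := mem_filter.1 hz
      exact mem_filter.2 ⟨this.1, g z, mem_coe.2 (mem_image_of_mem g hz), (hg z this.2).2.1⟩
    have c2 := Finset.card_filter_add_card_filter_not (s := Ph ε N) (Sm (K * N ^ 2))
    have c1' : (B.card : ℝ) ≤ hit (B.image g) (Ph ε N) := by exact_mod_cast c1
    have c2' : (((Ph ε N).filter (Sm (K * N ^ 2))).card : ℝ) + B.card = (Ph ε N).card := by
      exact_mod_cast c2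
    linarith

theorem few (ε : ℝ) (U : Finset G) (hU : ∀ p ∈ U, Prime p) (N0 : ℕ) :
    ∃ N, N0 ≤ N ∧ (hit U (Ph ε N) : ℝ) ≤ 72 * wt U * (Ph ε N).card := by
  classical
  obtain ⟨N, h0, h1, h2⟩ : ∃ N : ℕ, N0 ≤ N ∧ 1 ≤ N ∧ ∀ p ∈ U, p.norm ≤ N := by
    refine ⟨N0 + 1 + U.sup (fun p => p.norm.natAbs), by omega, by omega, fun p hp => ?_⟩
    have := Finset.le_sup (f := fun p : G => p.norm.natAbs) hp
    omega
  refine ⟨N, h0, ?_⟩
  have c1 : hit U (Ph ε N) ≤ ∑ p ∈ U, cnt p (Ph ε N) := by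
    unfold hit cnt
    refine le_trans (Finset.card_le_card ?_) Finset.card_biUnion_le
    intro z hz
    obtain ⟨a, p, b, c⟩ := mem_filter.1 hz
    exact mem_biUnion.2 ⟨p, mem_coe.1 b, mem_filter.2 ⟨a, c⟩⟩
  have c2 : (hit U (Ph ε N) : ℝ) ≤ ∑ p ∈ U, (cnt p (Ph ε N) : ℝ) := by exact_mod_cast c1
  have c3 : ∑ p ∈ U, (cnt p (Ph ε N) : ℝ) ≤ 72 * (N : ℝ) ^ 2 * wt U := by
    unfold wt
    rw [Finset.mul_sum]
    exact Finset.sum_le_sum fun p hp => cnt_wt (two_le_norm (hU p hp)) _ (h2 p hp)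
  have eA : ((Ph ε N).card : ℝ) = (2 * N - 1) ^ 2 := by
    unfold Ph
    rw [card_sq, Nat.cast_pow, Nat.cast_sub (by omega)]
    push_cast; ring
  have N1 : (1 : ℝ) ≤ N := by exact_mod_cast h1
  have w0 : 0 ≤ wt U := Finset.sum_nonneg fun p hp => by
    have := norm_posR (hU p hp).ne_zero
    positivity
  have h3 : (N : ℝ) ^ 2 ≤ (2 * N - 1) ^ 2 := by nlinarith
  rw [eA]
  nlinarith

theorem step {ε : ℝ} (hε : 0 < ε) (U : Finset G) (b : ℕ) (hU : ∀ p ∈ U, Prime p)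
    (hw : wt U < ε / (4 * (1 + ε)) / 144) :
    ∃ (V : Finset G) (a b' : ℕ), (∀ p ∈ V, Prime p) ∧ wt V < ε / (4 * (1 + ε)) / 144 ∧ U ⊆ V ∧
      b < a ∧ b < b' ∧ (∀ p ∈ V, p ∉ U → ∀ b'' ≤ b, ∀ z ∈ Ph ε b'', ¬ p ∣ z) ∧
      ε / (4 * (1 + ε)) * (Ph ε a).card ≤ hit V (Ph ε a) ∧
      (hit V (Ph ε b') : ℝ) ≤ ε / (4 * (1 + ε)) / 2 * (Ph ε b').card := by
  classical
  set R := ((range (b + 1)).biUnion (Ph ε)).sup (fun z => z.norm.natAbs) with hR
  obtain ⟨K, hK1, hKR, hKw⟩ : ∃ K : ℕ, 1 ≤ K ∧ R ≤ K ∧ wt U + 4 / K < ε / (4 * (1 + ε)) / 144 := by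
    have t : Tendsto (fun K : ℕ => wt U + 4 / (K : ℝ)) atTop (𝓝 (wt U + 0)) :=
      tendsto_const_nhds.add (tendsto_const_div_atTop_nhds_zero_nat 4)
    exact ((eventually_ge_atTop 1).and ((eventually_ge_atTop R).and
      (t.eventually_lt_const (by linarith)))).exists
  obtain ⟨a, ha, -, S, hS, hwS, hhit⟩ := many hε hK1 (b + 1)
  have hV : ∀ p ∈ U ∪ S, Prime p := fun p hp => (mem_union.1 hp).elim (hU p) fun h => (hS p h).1
  have hwV : wt (U ∪ S) < ε / (4 * (1 + ε)) / 144 := by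
    have e := Finset.sum_union_inter (s₁ := U) (s₂ := S) (f := fun p : G => 1 / (p.norm : ℝ))
    have : 0 ≤ ∑ p ∈ U ∩ S, 1 / (p.norm : ℝ) := Finset.sum_nonneg fun p hp => by
      have := norm_posR (hU p (mem_inter.1 hp).1).ne_zero
      positivity
    unfold wt at *
    linarith
  obtain ⟨b', hb', hfew⟩ := few ε (U ∪ S) hV (b + 1)
  refine ⟨U ∪ S, a, b', hV, hwV, subset_union_left, ha, hb', ?_, ?_, ?_⟩
  · intro p hp hn b'' hb z hz hd
    have h1 := (hS p ((mem_union.1 hp).resolve_left hn)).2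
    have h2 := norm_le_of_dvd hd (Ph_ne hε hz)
    have h3 : z.norm.natAbs ≤ R := Finset.le_sup (f := fun z : G => z.norm.natAbs)
      (mem_biUnion.2 ⟨b'', mem_range.2 (by omega), hz⟩)
    omega
  · refine hhit.trans ?_
    exact hit_mono fun z _ p h1 _ => mem_coe.2 (mem_union_right _ (mem_coe.1 h1))
  · refine hfew.trans (mul_le_mul_of_nonneg_right (by linarith) (Nat.cast_nonneg _))

theorem exists_set {ε : ℝ} (hε : 0 < ε) :
    ∃ (S : Set G) (a b : ℕ → ℕ), (∀ p ∈ S, Prime p) ∧ (∀ j, j < a j) ∧ (∀ j, j < b j) ∧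
      (∀ j, ε / (4 * (1 + ε)) * (Ph ε (a j)).card ≤ hit S (Ph ε (a j))) ∧
      ∀ j, (hit S (Ph ε (b j)) : ℝ) ≤ ε / (4 * (1 + ε)) / 2 * (Ph ε (b j)).card := by
  classical
  let St := {x : Finset G × ℕ // (∀ p ∈ x.1, Prime p) ∧ wt x.1 < ε / (4 * (1 + ε)) / 144}
  have st : ∀ x : St, ∃ (y : St) (a : ℕ), x.1.1 ⊆ y.1.1 ∧ x.1.2 < a ∧ x.1.2 < y.1.2 ∧
      (∀ p ∈ y.1.1, p ∉ x.1.1 → ∀ b'' ≤ x.1.2, ∀ z ∈ Ph ε b'', ¬ p ∣ z) ∧
      ε / (4 * (1 + ε)) * (Ph ε a).card ≤ hit y.1.1 (Ph ε a) ∧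
      (hit y.1.1 (Ph ε y.1.2) : ℝ) ≤ ε / (4 * (1 + ε)) / 2 * (Ph ε y.1.2).card := by
    intro x
    obtain ⟨V, a, b', h1, h2, h3⟩ := step hε x.1.1 x.1.2 x.2.1 x.2.2
    exact ⟨⟨(V, b'), h1, h2⟩, a, h3⟩
  choose F A h1 h2 h3 h4 h5 h6 using st
  let x0 : St := ⟨(∅, 0), by simp, by simp only [wt, sum_empty]; positivity⟩
  let X : ℕ → St := fun j => F^[j] x0
  have hX : ∀ j, X (j + 1) = F (X j) := fun j => Function.iterate_succ_apply' F j x0
  have mb : StrictMono fun j => (X j).1.2 :=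
    strictMono_nat_of_lt_succ fun j => by simp only [hX]; exact h3 _
  have mU : Monotone fun j => (X j).1.1 :=
    monotone_nat_of_le_succ fun j => by simp only [hX]; exact h1 _
  refine ⟨{p | ∃ j, p ∈ (X j).1.1}, fun j => A (X j), fun j => (X (j + 1)).1.2, ?_, ?_, ?_, ?_, ?_⟩
  · rintro p ⟨j, hj⟩
    exact (X j).2.1 p hj
  · intro j
    exact lt_of_le_of_lt (mb.le_apply (x := j)) (h2 _)
  · intro j
    exact mb.le_apply (x := j + 1)
  · intro j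
    refine (h5 (X j)).trans ?_
    exact hit_mono fun z _ p q1 _ => ⟨j + 1, by rw [hX]; exact q1⟩
  · intro j
    have := h6 (X j)
    rw [← hX] at this
    refine le_trans ?_ this
    have key : ∀ z ∈ Ph ε (X (j + 1)).1.2, ∀ p, p ∣ z → ∀ i, p ∈ (X i).1.1 → p ∈ (X (j + 1)).1.1 := by
      intro z hz p hd i
      induction i with
      | zero => exact fun h => mU (Nat.zero_le _) h
      | succ i ih =>
        intro h
        by_cases hi : i + 1 ≤ j + 1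
        · exact mU hi h
        · by_cases hp : p ∈ (X i).1.1
          · exact ih hp
          · rw [hX] at h
            exact (h4 (X i) p h hp _ (mb.monotone (by omega : j + 1 ≤ i)) z hz hd).elim
    refine hit_mono fun z hz p q1 q2 => ?_
    obtain ⟨i, q1⟩ := q1
    exact mem_coe.2 (key z hz p q2 i q1)

end Pool.Agent.H.MP_acc225_nt
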